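import Pool.Agent.W707.HM.Stm

/-! Continuity of the maximiser and the derivative of the conjugate function. -/

set_option autoImplicit false

namespace Pool.Agent.W202.HM.Tau

open Set Filter Topology
open Pool.Agent.W707.HM

theorem cont {f fs tau : ℝ → ℝ} (hf : ContinuousOn f (Icc (-1 : ℝ) 1)) (h : Cj f fs tau) {m : ℝ}
    (hm : ∀ t, SG f t m → t = tau m) : ContinuousAt tau m := by
  refine isCompact_Icc.tendsto_nhds_of_unique_mapClusterPt (s := Icc (-1 : ℝ) 1)
    (Eventually.of_forall fun m' => (h m').1.1) fun t ht hc => hm t ⟨ht, fun u hu => ?_⟩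
  obtain ⟨U, hU, hUt⟩ := mapClusterPt_iff_ultrafilter.1 hc
  have h1 : Tendsto (fun m' : ℝ => f (tau m')) U (𝓝 (f t)) :=
    (hf t ht).tendsto.comp (tendsto_nhdsWithin_iff.2
      ⟨hUt, Eventually.of_forall fun m' => (h m').1.1⟩)
  have h2 : Tendsto (fun m' : ℝ => m') U (𝓝 m) := hU
  have h3 : Tendsto (fun m' : ℝ => f (tau m') + m' * (u - tau m')) U
      (𝓝 (f t + m * (u - t))) := h1.add (h2.mul (tendsto_const_nhds.sub hUt))
  exact le_of_tendsto h3 (Eventually.of_forall fun m' => (h m').1.2 u hu)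

theorem low {f fs tau : ℝ → ℝ} (h : Cj f fs tau) (m m' : ℝ) :
    fs m + tau m * (m' - m) ≤ fs m' := by
  have h1 := (h m').1.2 (tau m) (h m).1.1
  have h2 := (h m).2
  have h3 := (h m').2
  nlinarith

theorem main : S_TAU := by
  intro f fs tau hf h m hm
  have hc := cont hf h hm
  refine ⟨hc, ?_⟩
  rw [hasDerivAt_iff_isLittleO, Asymptotics.isLittleO_iff]
  intro c hc0
  have h1 : ∀ᶠ m' in 𝓝 m, |tau m' - tau m| < c := by
    have := Metric.tendsto_nhds.1 hc c hc0
    simpa [Real.dist_eq] using this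
  filter_upwards [h1] with m' hm'
  have h2 := low h m m'
  have h3 := low h m' m
  rw [Real.norm_eq_abs, Real.norm_eq_abs, smul_eq_mul]
  have h4 : |fs m' - fs m - (m' - m) * tau m| ≤ |(tau m' - tau m) * (m' - m)| := by
    rw [abs_of_nonneg (by linarith)]
    refine le_trans ?_ (le_abs_self _)
    linarith
  rw [abs_mul] at h4
  exact h4.trans (mul_le_mul_of_nonneg_right hm'.le (abs_nonneg _))

end Pool.Agent.W202.HM.Tau
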